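import Pool.Agent.U536.CF.Sc
import Pool.Agent.U536.CF.Lg
import Pool.Agent.Results.MP_c2409d_nt.OneParameter

/-!
# Rohrlich's conjecture for the products `Γ(x_1 + y_1 / n) ⋯ Γ(x_r + y_r / n)` with `n` near integers with a large common
factor with a value of a multiplicative function

Let `x_j` and `y_j ≠ 0` be rational numbers such that for some rational number `q` the number of the `j` with `y_j > 0` and
`x_j + y_j q` an integer is different from the number of the `j` with `y_j < 0` and `x_j + y_j q` an integer (for instance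
let all `y_j` be positive). Let `f` be a positive multiplicative function of at most polynomial growth such that `f p ≤
M p` for the large primes `p`, with different values at different large primes; for example Euler's function or the sum of
the divisors. Let `G` have steps bounded below by a positive constant and growth at most `v^d`, for example `α v^d` with
any `d ≥ 1`. Let `B < 1`, `0 ≤ c < 2 B - 1` and `0 ≤ κ < ρ ≤ 1`. For all large `N` and every complex number `β` (the bound
for `N` does not depend on `β`), for all `m ≤ N` but `N exp (-(log N)^c)`, for EVERY integer `w ≥ exp ((log N)^B)` with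
`gcd(w, f(m)) ≥ w^ρ` and EVERY integer `n ≥ 1` with `|n - G w| ≤ w ^ κ`, the product `Γ(x_1 + y_1 / n) ⋯ Γ(x_r + y_r / n)`
is not `α β` with an algebraic number `α` of degree at most `D` and height at most `n ^ A`. For `β = π ^ (r / 2)` this is
the case of bounded degree and height of the question for these arguments. The integers `w` include all large divisors of
`f(m)` and their multiples by small integers; for Euler's function, the orders of the elements of the group of units
modulo `m`.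

Proof. The file `OneParameter` of the starting library bounds the number of the exceptional `n` in `[N, N ^ K]` by a
constant which does not depend on `N` and `β`. Write `m = k' u` with `u` squarefree and composed of primes larger than
`N^(1/J)`, `J = (log N)^s`, and `k' ≤ exp (4 (log N)^s)`; this is possible for all `m ≤ N` but very few. If
`v ∣ f(k') f(u)`, then the number of such `u ≤ N / k'` is at most `N / (k' v')` times `(log N)^O(J)` times the number
`τ_J(v')` of the ordered factorizations of `v'` into `J` factors, `v' = v / gcd(v, f(k'))`.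
The inequality `τ_J^q ≤ τ_K` for `K ≥ J^q` and Hölder's inequality bound
the sum over the sparse set of the exceptional `v`. The large divisors of the values of multiplicative functions form a
set of density zero and are taken with very large multiplicities, and so the theorem does not follow from the count of
the exceptional integers alone.
-/

set_option autoImplicit false

namespace Pool.Agent.Results.MP_c2409d_nt.CommonFactors

open Pool.Agent.N733.TG (LM Expanding lm_totient lm_sigma expanding_pow)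
open Pool.Agent.U536.CF (Common common_scale_nat common_of_dvd common_order)
open Pool.Agent.U536.CF (exists_small)
open Pool.Agent.Results.MP_c2409d_nt.OneParameter (AlgLe)

/-- for some rational number `q` the number of the `j` with `y_j > 0` and `x_j + y_j q` an integer is different from the
number of the `j` with `y_j < 0` and `x_j + y_j q` an integer -/
def NoCancellation {r : ℕ} (x y : Fin r → ℚ) : Prop :=
  ∃ q : ℚ, {j | 0 < y j ∧ ∃ z : ℤ, x j + y j * q = z}.ncard ≠ {j | y j < 0 ∧ ∃ z : ℤ, x j + y j * q = z}.ncard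

lemma noCancellation_of_pos {r : ℕ} (x y : Fin r → ℚ) (hr : 0 < r) (hy : ∀ j, 0 < y j) : NoCancellation x y := by
  refine ⟨-x ⟨0, hr⟩ / y ⟨0, hr⟩, ?_⟩
  have h1 : {j | y j < 0 ∧ ∃ z : ℤ, x j + y j * (-x ⟨0, hr⟩ / y ⟨0, hr⟩) = z} = ∅ := by
    ext j
    simp only [Set.mem_ofPred_eq, Set.mem_empty_iff_false, iff_false, not_and]
    intro h
    exact absurd h (not_lt.2 (hy j).le)
  rw [h1, Set.ncard_empty]
  have h2 : (⟨0, hr⟩ : Fin r) ∈ {j | 0 < y j ∧ ∃ z : ℤ, x j + y j * (-x ⟨0, hr⟩ / y ⟨0, hr⟩) = z} := by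
    refine ⟨hy _, 0, ?_⟩
    have := (hy ⟨0, hr⟩).ne'
    field_simp
    push_cast
    ring
  exact (Set.ncard_pos (Set.toFinite _)).2 ⟨_, h2⟩ |>.ne'

/-- the product is `α β` with an algebraic number `α` of degree at most `D` and height at most `n ^ A` -/
def Multiple {r : ℕ} (x y : Fin r → ℚ) (D : ℕ) (A : ℝ) (β : ℂ) (n : ℕ) : Prop :=
  ∃ α : ℂ, AlgLe D ((n : ℝ) ^ A) α ∧ ∏ j, Complex.Gamma ((x j : ℂ) + y j / n) = α * β

/-- the number of the exceptional integers -/
lemma count {r : ℕ} (x y : Fin r → ℚ) (hy : ∀ j, y j ≠ 0) (h : NoCancellation x y) (D : ℕ) (A : ℝ) {s : ℝ} (hs : 0 < s) :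
    ∃ Z : ℕ, ∀ (β : ℂ) (M : ℕ), 4 ≤ M →
      ({n : ℕ | 1 ≤ n ∧ n ≤ M ∧ (M < 2 * n ∧ Multiple x y D A β n)}.ncard : ℝ) ≤ Z * (M : ℝ) ^ s := by
  obtain ⟨q, hq⟩ := h
  obtain ⟨Z, hZ⟩ := OneParameter.result x y hy q hq D A 2
  refine ⟨Z, fun β M hM => ?_⟩
  have hM4 : (4 : ℝ) ≤ M := by exact_mod_cast hM
  have h1 := hZ β ((M : ℝ) / 2) (by linarith)
  have h2 : {n : ℕ | 1 ≤ n ∧ n ≤ M ∧ (M < 2 * n ∧ Multiple x y D A β n)} ⊆
      {n : ℕ | (M : ℝ) / 2 ≤ n ∧ (n : ℝ) ≤ ((M : ℝ) / 2) ^ (2 : ℝ) ∧ ∃ α : ℂ, AlgLe D ((n : ℝ) ^ A) α ∧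
        ∏ j, Complex.Gamma ((x j : ℂ) + y j / n) = α * β} := by
    rintro n ⟨-, g2, g3, g4⟩
    have g5 : (M : ℝ) < 2 * n := by exact_mod_cast g3
    have g6 : (n : ℝ) ≤ M := by exact_mod_cast g2
    refine ⟨by linarith, ?_, g4⟩
    rw [Real.rpow_two]
    nlinarith
  have hfin : {n : ℕ | (M : ℝ) / 2 ≤ n ∧ (n : ℝ) ≤ ((M : ℝ) / 2) ^ (2 : ℝ) ∧ ∃ α : ℂ, AlgLe D ((n : ℝ) ^ A) α ∧
        ∏ j, Complex.Gamma ((x j : ℂ) + y j / n) = α * β}.Finite := by
    refine (Set.finite_Iic ⌊((M : ℝ) / 2) ^ (2 : ℝ)⌋₊).subset fun n hn => ?_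
    exact Nat.le_floor hn.2.1
  have h3 : ({n : ℕ | 1 ≤ n ∧ n ≤ M ∧ (M < 2 * n ∧ Multiple x y D A β n)}.ncard : ℝ) ≤ Z := by
    exact_mod_cast (Set.ncard_le_ncard h2 hfin).trans h1
  have h4 : (1 : ℝ) ≤ (M : ℝ) ^ s := Real.one_le_rpow (by linarith) hs.le
  have h5 : (0 : ℝ) ≤ Z := Nat.cast_nonneg Z
  nlinarith

/-- **Products of gamma values at arguments with denominators near integers with a large common factor with a value of a
multiplicative function.** Let `x_j` and `y_j ≠ 0` be rational numbers with `NoCancellation x y`. Let `f` be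
multiplicative and positive, of at most polynomial growth, with `f p ≤ M p` at the large primes, and injective there
(`LM`). Let `G` have steps `≥ a > 0` and growth at most `v^d`. Let `B < 1`, `0 ≤ c < 2 B - 1` and `0 ≤ κ < ρ ≤ 1`. For all
large `N` and all complex numbers `β`, for all `m ≤ N` but `N exp (-(log N)^c)`, for EVERY integer `w ≥ exp ((log N)^B)`
with `gcd(w, f(m)) ≥ w^ρ` and EVERY integer `n ≥ 1` with `|n - G w| ≤ w ^ κ`, the product `Γ(x_1 + y_1 / n) ⋯ Γ(x_r + y_r
/ n)` is not `α β` with an algebraic number `α` of degree at most `D` and height at most `n ^ A`. All divisors `w ≥ exp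
((log N)^B)` of `f(m)` are such integers `w`, and for Euler's function the orders `≥ exp ((log N)^B)` of the units modulo
`m`. Euler's function and the sum of the divisors are examples of `f`, and `α v^d` with `α > 0`, `d ≥ 1` is an example of
`G`. If `r ≥ 1` and all `y_j` are positive, then `NoCancellation x y`. -/
theorem result :
    (∀ (r : ℕ) (x y : Fin r → ℚ), (∀ j, y j ≠ 0) → NoCancellation x y → ∀ (D : ℕ) (A : ℝ),
      ∀ f : ℕ → ℕ, LM f → ∀ (G : ℕ → ℝ) (d : ℝ), Expanding G d →
      ∀ κ ρ B c : ℝ, 0 ≤ κ → κ < ρ → ρ ≤ 1 → B < 1 → 0 ≤ c → c < 2 * B - 1 →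
      ∃ N₀ : ℕ, ∀ N : ℕ, N₀ ≤ N → ∀ β : ℂ,
        ({m : ℕ | 1 ≤ m ∧ m ≤ N ∧ ¬ ∀ w : ℕ, Common f B ρ N m w → ∀ n : ℕ, 1 ≤ n → |(n : ℝ) - G w| ≤ (w : ℝ) ^ κ →
          ¬ Multiple x y D A β n}.ncard : ℝ) ≤ N * Real.exp (-(Real.log N ^ c))) ∧
    (∀ (r : ℕ) (x y : Fin r → ℚ), 0 < r → (∀ j, 0 < y j) → NoCancellation x y) ∧
    (LM Nat.totient ∧ LM (fun m => ∑ d ∈ m.divisors, d)) ∧
    (∀ α d : ℝ, 0 < α → 1 ≤ d → Expanding (fun v => α * (v : ℝ) ^ d) d) ∧
    (∀ (f : ℕ → ℕ) (B ρ : ℝ) (N m w : ℕ), ρ ≤ 1 → Real.exp (Real.log N ^ B) ≤ (w : ℝ) → w ∣ f m → Common f B ρ N m w) ∧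
    ∀ (B ρ : ℝ) (N m : ℕ), ρ ≤ 1 → ∀ x : (ZMod m)ˣ, Real.exp (Real.log N ^ B) ≤ (orderOf x : ℝ) →
      Common Nat.totient B ρ N m (orderOf x) := by
  refine ⟨?_, fun r x y hr hy => noCancellation_of_pos x y hr hy, ⟨lm_totient, lm_sigma⟩,
    fun α d hα hd => expanding_pow hα hd, fun f B ρ N m w hρ hw hd => common_of_dvd hρ hw hd,
    fun B ρ N m hρ x hx => common_order hρ x hx⟩
  intro r x y hy hxy D A f hf G d hG κ ρ B c hκ h1 hρ hB hc hcb
  obtain ⟨s, hs, hs1⟩ := exists_small hG.one_le h1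
  obtain ⟨Z, hZ⟩ := count x y hy hxy D A hs
  obtain ⟨N₁, hN₁⟩ := common_scale_nat (s := s) (C := Z) hs 4 0 hf hG hκ hs1 hρ hB hc hcb
  exact ⟨N₁, fun N hN β => hN₁ (fun M n => M < 2 * n ∧ Multiple x y D A β n) (fun n => Multiple x y D A β n)
    (fun M hM => hZ β M hM) (fun n M _ _ _ h2 h3 => ⟨h2, h3⟩) N hN⟩

end Pool.Agent.Results.MP_c2409d_nt.CommonFactors
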