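import Pool.Agent.U449.BV.V
import Pool.Agent.Results.MP_c2409d_nt.CommensurableArguments

/-!
# Rohrlich's conjecture: parameters near the values of polynomials on arbitrary sets

The arguments are `a_i = c_i t_{j(i)} + x_i` with rational parameters `t_1, …, t_n` in an interval `[a, b]` (without poles). Let `0 ≤ κ`,
`2 (n - 1) + 2 n κ < δ ≤ 2 n`, let `p` be a large prime, `f(x, y)` ANY polynomial of bounded degree over the field of `p ^ (2 n)` elements
with a monomial which contains both variables (for example `f = x y`), let `A`, `B` be ARBITRARY subsets of this field with at least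
`p ^ δ` elements, and `g`, `h` ARBITRARY functions. For all the pairs in `A × B`, apart from a proportion of at most
`p ^ (-ρ)`, and for ALL tuples `t` of rational numbers in `[a, b]` with numerators and denominators at a distance of at most `p ^ κ` from
the least residues of the `2 n` coordinates of `f(a, b) + g(a) + h(b)`: if Rohrlich's condition on the fractional parts of the `m a_i`
fails, then the product of the `Γ(a_i)` is not `α π ^ (r / 2)` with a number `α` which is simple over the elementary numbers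
`e(t_k / N)`, `p ^ (t_k / N)` (degree at most `d`, height at most `T ^ A`, `T` the largest denominator of the `t_k`).
More generally, this holds for the values `F(a, b)` of all vector functions of two variables with few coincidences
(`RareV`), on arbitrary finite sets.

Since the sets and the functions `g` and `h` are arbitrary, the vectors have no arithmetic structure, and a vector may be
taken by very many pairs. So the number of the exceptions (starting library) does not give the result directly. Proof: the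
inequality of Cauchy and Schwarz; for most pairs `a, a'` the difference `F(a, b) - F(a', b)` is small for few `b`
(`Pool.Agent.U449.BV`).
-/

set_option autoImplicit false

namespace Pool.Agent.Results.MP_c2409d_nt.MixedPolynomials

open Finset
open Pool.Agent.U449.BV (RareV OnProductsV on_products_v coordinates)
open Pool.Agent.Results.MP_c2409d_nt.CommensurableArguments (args Identity Simple elementary Exceptional)

/-- the largest denominator of the `t_k` -/
def den {n : ℕ} (t : Fin n → ℚ) : ℕ := univ.sup fun k => (t k).den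

/-- The parameters `t_k` belong to `[a, b]`, Rohrlich's identity fails for the arguments `c_i t_{j(i)} + x_i`, but the product of the
values of the gamma function is `α π ^ (r / 2)`, where `α` is simple (`Simple`), with the bound `T ^ A` for the coefficients, `T` the
largest denominator of the `t_k`. -/
def Bad {n r : ℕ} (c x : Fin r → ℚ) (j : Fin r → Fin n) (a b : ℝ) (N B d : ℕ) (A : ℝ) (t : Fin n → ℚ) : Prop :=
  (∀ k, a ≤ (t k : ℝ) ∧ (t k : ℝ) ≤ b) ∧ ¬ Identity (args c x j t) ∧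
    ∃ α : ℂ, ((∏ i, Real.Gamma (args c x j t i) : ℝ) : ℂ) = α * ((Real.pi ^ ((r : ℝ) / 2) : ℝ) : ℂ) ∧
      Simple N B d ((den t : ℝ) ^ A) t α

/-- ALL tuples `t` of `n` rational numbers whose numerators are at a distance of at most `W` from the first `n` coordinates of `y`, and
whose (positive) denominators are at a distance of at most `W` from the last `n` coordinates of `y`, are not bad. -/
def Near {n r : ℕ} (c x : Fin r → ℚ) (j : Fin r → Fin n) (a b : ℝ) (N B d : ℕ) (A W : ℝ) (y : Fin (n + n) → ℝ) : Prop :=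
  ∀ t : Fin n → ℚ, (∀ k, |((t k).num : ℝ) - y (Fin.castAdd n k)| ≤ W) → (∀ k, |((t k).den : ℝ) - y (Fin.natAdd n k)| ≤ W) →
    ¬ Bad c x j a b N B d A t

theorem simple_mono {n N B d : ℕ} {H H' : ℝ} (h : H ≤ H') {t : Fin n → ℚ} {α : ℂ} (hs : Simple N B d H t α) :
    Simple N B d H' t α := by
  obtain ⟨P, h1, h2, h3, h4⟩ := hs
  exact ⟨P, h1, h2, fun s => (h3 s).trans h, h4⟩

theorem rats_card {a b X : ℝ} (hab : a ≤ b) (hX : 1 ≤ X) :
    {q : ℚ | a ≤ (q : ℝ) ∧ (q : ℝ) ≤ b ∧ (q.den : ℝ) ≤ X}.Finite ∧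
      ({q : ℚ | a ≤ (q : ℝ) ∧ (q : ℝ) ≤ b ∧ (q.den : ℝ) ≤ X}.ncard : ℝ) ≤ (b - a + 1) * X ^ 2 := by
  classical
  obtain ⟨M, hM⟩ : ∃ M : ℕ, M = ⌊X⌋₊ := ⟨_, rfl⟩
  have hMX : (M : ℝ) ≤ X := by rw [hM]; exact Nat.floor_le (by linarith)
  let U : Finset (ℤ × ℕ) := (Icc 1 M).biUnion fun m => (Icc ⌈a * m⌉ ⌊b * m⌋).image fun u => (u, m)
  have hmem : ∀ q : ℚ, a ≤ (q : ℝ) → (q : ℝ) ≤ b → (q.den : ℝ) ≤ X → (q.num, q.den) ∈ U := by
    intro q h1 h2 h3
    have hd : (0 : ℝ) < q.den := by exact_mod_cast q.den_pos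
    have hq : (q : ℝ) = q.num / q.den := by
      exact_mod_cast (Rat.num_div_den q).symm
    refine mem_biUnion.2 ⟨q.den, mem_Icc.2 ⟨q.den_pos, ?_⟩, mem_image.2 ⟨q.num, mem_Icc.2 ⟨?_, ?_⟩, rfl⟩⟩
    · rw [hM]
      exact Nat.le_floor h3
    · rw [Int.ceil_le]
      rw [hq, le_div_iff₀ hd] at h1
      exact h1
    · rw [Int.le_floor]
      rw [hq, div_le_iff₀ hd] at h2
      exact h2
  have hinj : Set.InjOn (fun q : ℚ => (q.num, q.den)) {q : ℚ | a ≤ (q : ℝ) ∧ (q : ℝ) ≤ b ∧ (q.den : ℝ) ≤ X} := by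
    intro q _ q' _ h
    simp only [Prod.mk.injEq] at h
    exact Rat.ext h.1 h.2
  have hfin : {q : ℚ | a ≤ (q : ℝ) ∧ (q : ℝ) ≤ b ∧ (q.den : ℝ) ≤ X}.Finite :=
    Set.Finite.of_injOn (t := (U : Set (ℤ × ℕ))) (fun q hq => hmem q hq.1 hq.2.1 hq.2.2) hinj U.finite_toSet
  refine ⟨hfin, ?_⟩
  have h1 : {q : ℚ | a ≤ (q : ℝ) ∧ (q : ℝ) ≤ b ∧ (q.den : ℝ) ≤ X}.ncard ≤ U.card := by
    rw [← Set.ncard_coe_finset]
    exact Set.ncard_le_ncard_of_injOn _ (fun q hq => hmem q hq.1 hq.2.1 hq.2.2) hinj U.finite_toSet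
  have h2 : U.card ≤ ∑ m ∈ Icc 1 M, (Icc ⌈a * m⌉ ⌊b * m⌋).card :=
    card_biUnion_le.trans (sum_le_sum fun m _ => card_image_le)
  have h3 : (∑ m ∈ Icc 1 M, ((Icc ⌈a * m⌉ ⌊b * m⌋).card : ℝ)) ≤ ∑ m ∈ Icc 1 M, (b - a + 1) * X := by
    refine sum_le_sum fun m hm => ?_
    have hmM : (m : ℝ) ≤ X := le_trans (by exact_mod_cast (mem_Icc.1 hm).2) hMX
    have hm0 : (0 : ℝ) ≤ m := Nat.cast_nonneg m
    rw [Int.card_Icc]
    have h4 : (((⌊b * m⌋ + 1 - ⌈a * m⌉).toNat : ℕ) : ℝ) ≤ max (b * m + 1 - a * m) 0 := by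
      have h5 : (((⌊b * m⌋ + 1 - ⌈a * m⌉).toNat : ℕ) : ℤ) = max (⌊b * m⌋ + 1 - ⌈a * m⌉) 0 := Int.toNat_eq_max _
      have h6 : (((⌊b * m⌋ + 1 - ⌈a * m⌉).toNat : ℕ) : ℝ) = max ((⌊b * m⌋ : ℝ) + 1 - ⌈a * m⌉) 0 := by
        have := congrArg (fun z : ℤ => (z : ℝ)) h5
        push_cast at this
        exact this
      rw [h6]
      exact max_le_max (by linarith [Int.floor_le (b * m), Int.le_ceil (a * m)]) le_rfl
    refine h4.trans (max_le ?_ (by nlinarith))
    nlinarith
  rw [sum_const, Nat.card_Icc, nsmul_eq_mul] at h3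
  have h4 : ((M + 1 - 1 : ℕ) : ℝ) ≤ X := by
    rw [Nat.add_sub_cancel]
    exact hMX
  calc ({q : ℚ | a ≤ (q : ℝ) ∧ (q : ℝ) ≤ b ∧ (q.den : ℝ) ≤ X}.ncard : ℝ)
      ≤ ∑ m ∈ Icc 1 M, ((Icc ⌈a * m⌉ ⌊b * m⌋).card : ℝ) := by exact_mod_cast h1.trans h2
    _ ≤ ((M + 1 - 1 : ℕ) : ℝ) * ((b - a + 1) * X) := h3
    _ ≤ X * ((b - a + 1) * X) := mul_le_mul_of_nonneg_right h4 (by nlinarith)
    _ = (b - a + 1) * X ^ 2 := by ring

/-- **Theorem.** For all `n ≥ 1`, coefficients, intervals without poles, `N`, `B`, `d`, `A` and `κ ≥ 0` the property `Near` holds for almost all values of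
vector functions of two variables with few coincidences, on arbitrary finite sets of at least `X ^ δ` elements, where
`2 (n - 1) + 2 n κ < δ ≤ 2 n` (`OnProductsV`).
The tuples of the least residues modulo `p` of the coordinates (with respect to a basis over the field of `p` elements) of
`f(a, b) + g(a) + h(b)` in a field of `p ^ k` elements are such a function, with `X = p`, for all polynomials `f` over this
field with a monomial which contains both variables, arbitrary functions `g` and `h`, and arbitrary finite subsets. -/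
theorem result :
    (∀ (n r : ℕ), 1 ≤ n → ∀ (c : Fin r → ℚ), (∀ i, c i ≠ 0) → ∀ (x : Fin r → ℚ) (j : Fin r → Fin n) (a b : ℝ), a ≤ b →
      (∀ i (s : ℝ), a ≤ s → s ≤ b → ∀ k : ℕ, (c i : ℝ) * s + x i ≠ -k) → ∀ (N B d : ℕ), 0 < N → ∀ A : ℝ, 0 ≤ A →
      ∀ κ : ℝ, 0 ≤ κ → OnProductsV (n + n) (2 * ((n - 1 : ℕ) : ℝ) + ((n + n : ℕ) : ℝ) * κ) κ (Near c x j a b N B d A)) ∧
    ∀ (p : ℕ) [Fact p.Prime] (k : ℕ) (K : Type) [Field K] [Algebra (ZMod p) K] (e : Module.Basis (Fin k) (ZMod p) K)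
      (d : ℕ) (f : MvPolynomial (Fin 2) K), f.totalDegree ≤ d → (∃ m ∈ f.support, m 0 ≠ 0 ∧ m 1 ≠ 0) →
      ∀ (g h : K → K) (A B : Finset K),
        RareV d A B (fun a b i => (((e.repr (MvPolynomial.eval ![a, b] f + g a + h b) i).val : ℕ) : ℝ)) := by
  classical
  refine ⟨fun n r hn c hc x j a b hab hpole N B d hN A hA κ hκ => ?_, coordinates⟩
  have key := on_products_v (k := n + n) {t : Fin n → ℚ | Bad c x j a b N B d A t}
    (fun t => Fin.addCases (fun k => ((t k).num : ℝ)) (fun k => ((t k).den : ℝ)))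
    (s := 2 * ((n - 1 : ℕ) : ℝ)) (κ := κ) (by positivity) hκ (fun ε hε => by
      obtain ⟨C, T₀, h⟩ := CommensurableArguments.result n r c hc x j a b hpole N B d hN A ε hε
      refine ⟨|C| * (max 1 T₀) ^ ε * (b - a + 1) ^ (n - 1), fun X hX => ?_⟩
      have hX0 : 0 < X := by linarith
      obtain ⟨hf, hcard⟩ := rats_card hab hX
      obtain ⟨T, hT⟩ : ∃ T : ℝ, T = max X T₀ := ⟨_, rfl⟩
      have hXT : X ≤ T := hT ▸ le_max_left _ _
      have hT0 : 0 < T := by linarith
      obtain ⟨h1, h2⟩ := h T (hT ▸ le_max_right _ _) hf.toFinset (fun q hq => by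
        rw [hf.mem_toFinset] at hq
        exact ⟨hq.1, hq.2.1, hq.2.2.trans hXT⟩)
      have hsub : {t : Fin n → ℚ | t ∈ {t : Fin n → ℚ | Bad c x j a b N B d A t} ∧
          ∀ i, |(Fin.addCases (fun k => ((t k).num : ℝ)) (fun k => ((t k).den : ℝ)) i : ℝ)| ≤ X} ⊆
          Exceptional c x j N B d (T ^ A) hf.toFinset := by
        rintro t ⟨⟨h3, h4, α, h5, h6⟩, h7⟩
        have h8 : ∀ k, ((t k).den : ℝ) ≤ X := by
          intro k
          have := h7 (Fin.natAdd n k)
          rw [Fin.addCases_right] at this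
          rwa [abs_of_nonneg (Nat.cast_nonneg _)] at this
        refine ⟨fun k => hf.mem_toFinset.2 ⟨(h3 k).1, (h3 k).2, h8 k⟩, h4, α, h5, simple_mono ?_ h6⟩
        refine Real.rpow_le_rpow (Nat.cast_nonneg _) ?_ hA
        have h9 : den t ≤ ⌊X⌋₊ := Finset.sup_le fun k _ => Nat.le_floor (h8 k)
        calc ((den t : ℕ) : ℝ) ≤ (⌊X⌋₊ : ℝ) := by exact_mod_cast h9
          _ ≤ X := Nat.floor_le hX0.le
          _ ≤ T := hXT
      refine ⟨h1.subset hsub, ?_⟩
      have h3 := Set.ncard_le_ncard hsub h1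
      have h4 : ((hf.toFinset.card : ℕ) : ℝ) ≤ (b - a + 1) * X ^ 2 := by
        rw [← Set.ncard_eq_toFinset_card _ hf]
        exact hcard
      have hb : 0 ≤ b - a + 1 := by linarith
      have h5 : T ^ ε ≤ (max 1 T₀) ^ ε * X ^ ε := by
        rw [← Real.mul_rpow (by positivity) hX0.le]
        refine Real.rpow_le_rpow hT0.le ?_ hε.le
        rw [hT]
        have h6 : 1 ≤ max 1 T₀ := le_max_left _ _
        have h7 : T₀ ≤ max 1 T₀ := le_max_right _ _
        refine max_le ?_ ?_ <;> nlinarith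
      calc ({t : Fin n → ℚ | t ∈ {t : Fin n → ℚ | Bad c x j a b N B d A t} ∧
          ∀ i, |(Fin.addCases (fun k => ((t k).num : ℝ)) (fun k => ((t k).den : ℝ)) i : ℝ)| ≤ X}.ncard : ℝ)
          ≤ C * T ^ ε * (hf.toFinset.card : ℝ) ^ (n - 1) := le_trans (by exact_mod_cast h3) h2
        _ ≤ |C| * T ^ ε * (hf.toFinset.card : ℝ) ^ (n - 1) := by
          gcongr
          exact le_abs_self C
        _ ≤ |C| * ((max 1 T₀) ^ ε * X ^ ε) * ((b - a + 1) * X ^ 2) ^ (n - 1) := by gcongr
        _ = |C| * (max 1 T₀) ^ ε * (b - a + 1) ^ (n - 1) * (X ^ (2 * (n - 1)) * X ^ ε) := by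
          rw [mul_pow, ← pow_mul]
          ring
        _ = |C| * (max 1 T₀) ^ ε * (b - a + 1) ^ (n - 1) * X ^ (2 * ((n - 1 : ℕ) : ℝ) + ε) := by
          rw [Real.rpow_add hX0]
          congr 2
          rw [← Real.rpow_natCast]
          push_cast
          rfl)
  refine key.mono fun W y _ h' t h3 h4 hbad => ?_
  refine h' t (fun i => ?_) hbad
  refine Fin.addCases (fun k => ?_) (fun k => ?_) i
  · rw [Fin.addCases_left]
    exact h3 k
  · rw [Fin.addCases_right]
    exact h4 k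

end Pool.Agent.Results.MP_c2409d_nt.MixedPolynomials
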