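import Pool.Agent.U831.MU.Compat

/-!
# Products of Gamma values and powers of `π`: the exceptional ones are given by weights

Let `a_1, …, a_n` be rational numbers, no non-positive integers, and consider the numbers
`α Γ(a_1)^{m_1} ⋯ Γ(a_n)^{m_n} / π^{k/2}` with integers `m_i`, `k` of absolute value at most `E` and
`α` in a finite set of nonzero algebraic numbers. Rohrlich's conjecture says which of them are
algebraic; it implies that for given `m` this happens for one `k` at most, the one with
`k / 2 = ∑ m_i / 2`, and only if `∑ m_i ({u a_i} - 1/2) = 0` for all `u` prime to the denominator.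

A number `x` is good at the scale `N` if for ALL nonconstant integer polynomials `f` of degree at most
`D` with coefficients at most `N ^ c` the multiples `n f(x)`, `n < N`, are equidistributed modulo one
with discrepancy `N ^ (-c)`. Algebraic numbers of degree at most `D` are good at no large scale. We
show: for all `D`, `E`, `M` there is `c > 0` such that for every large `X` there are rational weights
`w_1, …, w_n` such that at ALL scales `N` between `X` and `X ^ M` all the numbers above with
`k / 2 ≠ ∑ w_i m_i` are good; moreover `k / 2 = ∑ w_i m_i` for all the numbers above which are algebraic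
of degree at most `D` (so the weights satisfy the relations which come from the reflection and the
multiplication formula, such as `w(a) + w(1 - a) = 1`). So on long ranges of scales the exceptional numbers are governed by one
linear function of `m`, as in the conjecture, where `w_i = 1/2 + t ({u a_i} - 1/2)` is possible for
all `u` and `t`.

The proof: a number which is not good is close to an algebraic number of degree at most `D` and small
height. Numbers of this kind are closed under multiplication, with any number of factors (a new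
joint transcendence measure of several numbers, `Pool.Agent.U831.MU.multi`: if an integer polynomial
in `u_1, …, u_r` has a transcendence measure then `u_1, …, u_r` are not simultaneously close to
algebraic numbers; the proof uses the determinant of an integer matrix which acts approximately on
the vector of the monomials in the `u_i`). If the exceptional `(m, k)` at the scales between `X` and
`X ^ M` spanned a space with the vector `(0, 1)` there would be a contradiction to the measure of a
power of `π`.
-/

set_option autoImplicit false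

namespace Pool.Agent.Results.MP_c2409d_nt.WeightsOfGammaValues

open Polynomial

/-- The number of `n < N` with the fractional part of `n α + γ` in `[u, v)`. -/
noncomputable def count (α γ u v : ℝ) (N : ℕ) : ℕ :=
  ((Finset.range N).filter fun n : ℕ =>
    u ≤ Int.fract (n * α + γ) ∧ Int.fract (n * α + γ) < v).card

/-- The sequence `n α + γ` (`n < N`) modulo one has discrepancy at most `Δ`, for every shift `γ`. -/
def DiscrepancyLe (α : ℝ) (N : ℕ) (Δ : ℝ) : Prop :=
  ∀ γ u v : ℝ, 0 ≤ u → u ≤ v → v ≤ 1 → |(count α γ u v N : ℝ) - (v - u) * N| ≤ Δ * N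

/-- `x` is good at the scale `N`: the multiples of all the numbers `f(x)`, where `f` is a
nonconstant integer polynomial of degree at most `D` with coefficients at most `N ^ c`, are
equidistributed with discrepancy at most `N ^ (-c)`. -/
def Good (D : ℕ) (c : ℝ) (N : ℕ) (x : ℝ) : Prop :=
  ∀ f : ℤ[X], 1 ≤ f.natDegree → f.natDegree ≤ D → (∀ k, |(f.coeff k : ℝ)| ≤ (N : ℝ) ^ c) →
    DiscrepancyLe (aeval x f) N ((N : ℝ) ^ (-c))

/-- On every long range of scales the exceptional products of Gamma values and powers of `√π` are
given by rational weights of the Gamma values, which respect all algebraic relations. -/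
theorem result (n : ℕ) (a : Fin n → ℚ) (ha : ∀ i, ∀ j : ℕ, a i ≠ -(j : ℚ)) (A : Finset ℝ)
    (hA : ∀ α ∈ A, α ≠ 0 ∧ IsAlgebraic ℚ α) (E D : ℕ) (M : ℝ) (hM : 2 ≤ M) :
    ∃ c : ℝ, 0 < c ∧ ∃ X₀ : ℝ, ∀ X : ℝ, X₀ ≤ X → ∃ w : Fin n → ℚ,
      ∀ α ∈ A, ∀ (m : Fin n → ℤ) (k : ℤ), (∀ i, |m i| ≤ E) → |k| ≤ E →
        -- the weights respect the algebraic relations of degree at most `D`
        ((∃ P : ℤ[X], P ≠ 0 ∧ P.natDegree ≤ D ∧
          aeval (α * (∏ i, Real.Gamma (a i) ^ m i) / Real.sqrt Real.pi ^ k) P = 0) →
            (k : ℚ) / 2 = ∑ i, w i * m i) ∧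
        -- all the other products are good at all scales between `X` and `X ^ M`
        ((k : ℚ) / 2 ≠ ∑ i, w i * m i → ∀ N : ℕ, X ≤ N → (N : ℝ) ≤ X ^ M →
          Good D c N (α * (∏ i, Real.Gamma (a i) ^ m i) / Real.sqrt Real.pi ^ k)) := by
  classical
  have hx : Pool.Agent.TH456.TM.MeasT ((Real.sqrt Real.pi : ℝ) : ℂ) := by
    have h := Pool.Agent.TH456.TM.measT_rpow Real.pi Real.pi_pos Pool.Agent.TH456.TM.measT_pi
      (1 / 2) (by norm_num)
    rw [Real.sqrt_eq_rpow]
    have e : (((1 / 2 : ℚ) : ℝ)) = 1 / 2 := by norm_num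
    rw [e] at h
    exact h
  have hx0 : Real.sqrt Real.pi ≠ 0 := (Real.sqrt_pos.2 Real.pi_pos).ne'
  have hz : ∀ i, Real.Gamma (a i) ≠ 0 := fun i => Real.Gamma_ne_zero fun j h => ha i j (by
    have h1 : ((a i : ℚ) : ℝ) = ((-(j : ℚ) : ℚ) : ℝ) := by rw [h]; push_cast; rfl
    exact_mod_cast h1)
  obtain ⟨c, hc, X₀, h⟩ := Pool.Agent.U831.MU.engine' _ _ _ _ D M hM
    (Pool.Agent.U831.MU.mono (fun i => Real.Gamma (a i)) hz (Real.sqrt Real.pi) hx0 hx
    (A ×ˢ ((Fintype.piFinset fun _ : Fin n => Finset.Icc (-(E : ℤ)) E) ×ˢ
      Finset.Icc (-(E : ℤ)) E)) (fun t => t.1)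
    (fun t ht => (hA _ (Finset.mem_product.1 ht).1).1)
    (fun t ht => (hA _ (Finset.mem_product.1 ht).1).2) (fun t => t.2.1) (fun t => -t.2.2) D M
    (by linarith))
  refine ⟨c, hc, X₀, fun X hX => ?_⟩
  obtain ⟨w, hw1, hw2⟩ := h X hX
  refine ⟨fun i => -(w i) / 2, fun α hα m k hm hk => ?_⟩
  have hmem : (α, m, k) ∈ A ×ˢ ((Fintype.piFinset fun _ : Fin n => Finset.Icc (-(E : ℤ)) E) ×ˢ
      Finset.Icc (-(E : ℤ)) E) := by
    rw [Finset.mem_product, Finset.mem_product]
    refine ⟨hα, ?_, ?_⟩
    · rw [Fintype.mem_piFinset]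
      intro i
      rw [Finset.mem_Icc]
      exact abs_le.1 (hm i)
    · rw [Finset.mem_Icc]
      exact abs_le.1 hk
  have h3 : ∑ i, -(w i) / 2 * (m i : ℚ) = -(∑ i, w i * m i) / 2 := by
    rw [← Finset.sum_neg_distrib, Finset.sum_div]
    refine Finset.sum_congr rfl fun i _ => ?_
    ring
  have h4 : α * (∏ i, Real.Gamma (a i) ^ m i) / Real.sqrt Real.pi ^ k =
      α * (∏ i, Real.Gamma (a i) ^ m i) * Real.sqrt Real.pi ^ (-k) := by
    rw [zpow_neg]
    rfl
  rw [h3, h4]
  refine ⟨fun hP => ?_, fun hne N hN1 hN2 => ?_⟩
  · have h5 := hw1 (α, m, k) hmem hP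
    rw [← h5]
    push_cast
    ring
  · refine hw2 (α, m, k) hmem (fun h2 => hne ?_) N hN1 hN2
    rw [← h2]
    push_cast
    ring

end Pool.Agent.Results.MP_c2409d_nt.WeightsOfGammaValues
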